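import Pool.Agent.H90.UL.Targets
import Pool.Agent.H27.Pattern.Basic

/-!
# UNI: a block which meets every class modulo a prime occurs only once
-/

set_option autoImplicit false

namespace Pool.Agent.H90.UL

open Pool.Agent.H27.Pattern Finset

lemma uni_le_iff {a b : ℕ} (ha : 1 ≤ a) (hb : 1 ≤ b) : p a ≤ p b ↔ a ≤ b := by
  constructor
  · intro h
    by_contra hlt
    exact absurd (p_strictMono hb (not_le.1 hlt)) (not_lt.2 h)
  · intro h
    rcases h.eq_or_lt with h | h
    · rw [h]
    · exact (p_strictMono ha h).le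

/-- the primes of the interval from `p k` to `p (k + l - 1)` -/
lemma uni_mem {k l x : ℕ} (hk : 1 ≤ k) (hl : 1 ≤ l) (h1 : p k ≤ x) (h2 : x ≤ p (k + (l - 1)))
    (hx : x.Prime) : ∃ i < l, p (k + i) = x := by
  obtain ⟨i, -, hi⟩ := exists_index hx hk h1 (le_refl x)
  refine ⟨i, ?_, hi⟩
  rw [← hi, uni_le_iff (by omega) (by omega)] at h2
  omega

lemma uni_core (hC : T_COR) {j k l q : ℕ} (hj : 1 ≤ j) (hjk : j < k) (hl : 1 ≤ l) (hq : q.Prime)
    (hs : SamePattern j k l) (hc : ∀ c : ℕ, c < q → ∃ i : ℕ, i < l ∧ p (j + i) % q = c) :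
    False := by
  have hlt := p_strictMono hj hjk
  have hs' : ∀ i < l, p (j + i) + (p k - p j) = p (k + i) := by
    intro i hi
    have := hs i hi
    omega
  refine hC (p j) (p (j + (l - 1))) (p k - p j) q (p_prime j) (by omega) hq ?_ ?_
  · intro x h1 h2
    constructor
    · intro hx
      obtain ⟨i, hi, rfl⟩ := uni_mem hj hl h1 h2 hx
      rw [hs' i hi]
      exact p_prime _
    · intro hx
      have h3 := hs' (l - 1) (by omega)
      obtain ⟨i, hi, h4⟩ := uni_mem (by omega : 1 ≤ k) hl (by omega : p k ≤ x + (p k - p j))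
        (by omega) hx
      have h5 := hs' i hi
      have h6 : x = p (j + i) := by omega
      rw [h6]
      exact p_prime _
  · intro c hcq
    obtain ⟨i, hi, h1⟩ := hc c hcq
    refine ⟨p (j + i), p_prime _, ?_, ?_, h1⟩
    · exact (uni_le_iff hj (by omega)).2 (by omega)
    · exact (uni_le_iff (by omega) (by omega)).2 (by omega)

theorem pf_uni (hC : T_COR) : T_UNI ∧ T_LOW := by
  refine ⟨?_, ?_⟩
  · rintro k l hk ⟨q, hq, hc⟩
    have hl : 1 ≤ l := by
      obtain ⟨i, hi, -⟩ := hc 0 hq.pos
      omega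
    refine ⟨hl, fun j hj hjk hs => ?_⟩
    rcases lt_or_gt_of_ne hjk with h | h
    · -- `j < k`
      refine uni_core hC hj h hl hq hs fun c hcq => ?_
      have hlt := p_strictMono hj h
      obtain ⟨i, hi, h1⟩ := hc ((c + (p k - p j)) % q) (Nat.mod_lt _ hq.pos)
      refine ⟨i, hi, ?_⟩
      have h2 : p (j + i) + (p k - p j) = p (k + i) := by
        have := hs i hi
        omega
      rw [← h2] at h1
      have h3 : p (j + i) ≡ c [MOD q] := Nat.ModEq.add_right_cancel' (p k - p j) h1
      rw [h3, Nat.mod_eq_of_lt hcq]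
    · -- `k < j`
      refine uni_core hC hk h hl hq (fun i hi => (hs i hi).symm) hc
  · rintro k l hk ⟨q, hq, hc⟩
    obtain ⟨i, hi, h0⟩ := hc 0 hq.pos
    have h1 : q ∣ p (k + i) := Nat.dvd_of_mod_eq_zero h0
    have h2 : q = p (k + i) := (Nat.prime_dvd_prime_iff_eq hq (p_prime _)).1 h1
    have h3 : p k ≤ q := by
      rw [h2]
      exact (uni_le_iff hk (by omega)).2 (by omega)
    refine h3.trans ?_
    choose! f hf using hc
    have h4 : (Finset.range q).card ≤ (Finset.range l).card := by
      refine Finset.card_le_card_of_injOn f ?_ ?_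
      · intro c hc'
        exact Finset.mem_coe.2 (Finset.mem_range.2 (hf c (Finset.mem_range.1 hc')).1)
      · intro c hc' d hd' h
        rw [← (hf c (Finset.mem_range.1 hc')).2, ← (hf d (Finset.mem_range.1 hd')).2, h]
    simpa using h4

end Pool.Agent.H90.UL
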